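import Mathlib

set_option autoImplicit false

namespace H375.Numer

theorem log5 : Real.log 5 ≤ 1.6096 := by
  have h1 : Real.log 5 = Real.log (2 ^ 2) + Real.log (5 / 4) := by
    rw [← Real.log_mul (by norm_num) (by norm_num)]; norm_num
  have h2 : Real.log (2 ^ 2) = 2 * Real.log 2 := by
    rw [Real.log_pow]; norm_num
  have h3 : Real.log 2 < 0.6931471808 := Real.log_two_lt_d9
  have h4 : Real.log (5 / 4) ≤ 0.2232 := by
    rw [Real.log_le_iff_le_exp (by norm_num)]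
    have := Real.sum_le_exp_of_nonneg (x := 0.2232) (by norm_num) 5
    refine le_trans ?_ this
    norm_num [Finset.sum_range_succ, Nat.factorial]
  rw [h1, h2]; linarith

theorem five_pow {K' : ℝ} (hK' : 1 ≤ K') {m : ℕ} (hmS : (m : ℝ) ≤ 480 * Real.log K' + 1) :
    (5 : ℝ) ^ (4 * m) ≤ 5 ^ 4 * K' ^ 3091 := by
  have hlogK' : 0 ≤ Real.log K' := Real.log_nonneg hK'
  have hlog5 := log5
  have hlog5' : 0 ≤ Real.log 5 := Real.log_nonneg (by norm_num)
  have e1 : (5 : ℝ) ^ (4 * m) = Real.exp (4 * (m * Real.log 5)) := by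
    rw [← Real.rpow_natCast, Real.rpow_def_of_pos (by norm_num)]
    congr 1; push_cast; ring
  have e2 : (5 : ℝ) ^ 4 * K' ^ 3091 = Real.exp (4 * Real.log 5 + 3091 * Real.log K') := by
    rw [← Real.rpow_natCast K', Real.rpow_def_of_pos (by linarith), ← Real.rpow_natCast 5,
      Real.rpow_def_of_pos (by norm_num), ← Real.exp_add]
    congr 1; push_cast; ring
  rw [e1, e2]
  apply Real.exp_le_exp.2
  calc 4 * ((m : ℝ) * Real.log 5) ≤ 4 * ((480 * Real.log K' + 1) * Real.log 5) := by gcongr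
    _ = 4 * Real.log 5 + (1920 * Real.log 5) * Real.log K' := by ring
    _ ≤ 4 * Real.log 5 + 3091 * Real.log K' := by
      have : 1920 * Real.log 5 ≤ 3091 := by linarith
      nlinarith

theorem final_bound {K' M F T : ℝ} (hK' : 1 ≤ K') (hM : 0 ≤ M) (hMK : M ≤ K') {m : ℕ}
    (hmS : (m : ℝ) ≤ 480 * Real.log K' + 1) (hF : F ≤ K' ^ 186)
    (hT : T ≤ F * (6 * M * 5 ^ (4 * m))) : T ≤ (2 * K') ^ 3300 := by
  have h5 := five_pow hK' hmS
  have h1 : (3750 : ℝ) ≤ 2 ^ 3300 := by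
    calc (3750 : ℝ) ≤ 2 ^ 12 := by norm_num
      _ ≤ 2 ^ 3300 := pow_le_pow_right₀ (by norm_num) (by norm_num)
  have h2 : K' ^ 3278 ≤ K' ^ 3300 := pow_le_pow_right₀ hK' (by norm_num)
  have h3 : K' ^ 186 * (K' * K' ^ 3091) = K' ^ 3278 := by
    rw [← pow_succ', ← pow_add]
  calc T ≤ F * (6 * M * 5 ^ (4 * m)) := hT
    _ ≤ K' ^ 186 * (6 * K' * (5 ^ 4 * K' ^ 3091)) := by gcongr
    _ = 3750 * (K' ^ 186 * (K' * K' ^ 3091)) := by
        generalize K' ^ 186 = a
        generalize K' ^ 3091 = b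
        ring
    _ = 3750 * K' ^ 3278 := by rw [h3]
    _ ≤ 2 ^ 3300 * K' ^ 3300 := mul_le_mul h1 h2 (by positivity) (by positivity)
    _ = (2 * K') ^ 3300 := (mul_pow _ _ _).symm

end H375.Numer
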